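import Pool.Agent.W717.UR.Stm

set_option autoImplicit false

namespace Pool.Agent.W479.UR

open Pool.Agent.W717.UR

/-- the indices at which a function does not vanish -/
def spt {ι : Type} (v : EE ι) : Set ι := {i | ∃ k g, v ⟨i, k, g⟩ ≠ 0}

/-- selection of vectors with pairwise disjoint supports -/
theorem sel : S_SEL := by
  classical
  intro C D g0 hyp
  let good : C × EE (C × Kap C) → Prop := fun p =>
    p.2 ∈ D ∧ (∃ α : Kap C, p.2 ⟨(p.1, α), 0, g0 p.1⟩ ≠ 0) ∧ (spt p.2).Countable
  let Fam : Set (Set (C × EE (C × Kap C))) := {S | (∀ p ∈ S, good p) ∧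
    ∀ p ∈ S, ∀ p' ∈ S, p ≠ p' → p.1 ≠ p'.1 ∧ Disjoint (spt p.2) (spt p'.2)}
  obtain ⟨m, hm⟩ : ∃ m, Maximal (· ∈ Fam) m := by
    apply zorn_subset
    intro c hc hchain
    refine ⟨⋃₀ c, ⟨?_, ?_⟩, fun s hs => Set.subset_sUnion_of_mem hs⟩
    · rintro p ⟨s, hs, hp⟩
      exact (hc hs).1 p hp
    · rintro p ⟨s, hs, hp⟩ p' ⟨s', hs', hp'⟩ hne
      rcases hchain.total hs hs' with h | h
      · exact (hc hs').2 p (h hp) p' hp' hne
      · exact (hc hs).2 p hp p' (h hp') hne
  have hall : ∀ c : C, ∃ p ∈ m, p.1 = c := by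
    intro c
    by_contra hno
    push Not at hno
    have : Nonempty (C × Kap C) := ⟨(c, ∅)⟩
    have hJ : ∀ c' : C, ∃ f : ℕ → C × Kap C, {i | ∃ p ∈ m, p.1 = c' ∧ i ∈ spt p.2} ⊆ Set.range f := by
      intro c'
      rw [← Set.countable_iff_exists_subset_range]
      by_cases h : ∃ p ∈ m, p.1 = c'
      · obtain ⟨p, hp, hpc⟩ := h
        refine ((hm.1.1 p hp).2.2).mono ?_
        rintro i ⟨p', hp', hpc', hi⟩
        have : p' = p := by
          by_contra hne
          exact (hm.1.2 p' hp' p hp hne).1 (by rw [hpc', hpc])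
        rw [← this]
        exact hi
      · refine Set.Countable.mono ?_ Set.countable_empty
        rintro i ⟨p', hp', hpc', _⟩
        exact absurd ⟨p', hp', hpc'⟩ h
    choose f hf using hJ
    choose v hvD hv1 hv2 hv3 using hyp c
    have hinj := Function.cantor_injective
      (fun (α : Kap C) (p : C × ℕ) (kg : ℕ × (ℤ → ℝ)) => v α ⟨f p.1 p.2, kg.1, kg.2⟩)
    rw [Function.Injective] at hinj
    push Not at hinj
    obtain ⟨α, β, hαβ, hne⟩ := hinj
    set d : EE (C × Kap C) := v α - v β with hd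
    have hdv : ∀ x, d x = v α x - v β x := fun x => rfl
    have hgood : good (c, d) := by
      refine ⟨D.sub_mem (hvD α) (hvD β), ⟨α, ?_⟩, ?_⟩
      · change d ⟨(c, α), 0, g0 c⟩ ≠ 0
        rw [hdv]
        have h1 := hv1 α
        have h2 := hv2 β α hne
        rw [abs_le] at h2
        have h3 := h2.2
        intro h0
        linarith
      · refine Set.Countable.mono ?_ ((hv3 α).union (hv3 β))
        rintro i ⟨k, g, hkg⟩
        change d ⟨i, k, g⟩ ≠ 0 at hkg
        rw [hdv] at hkg
        by_cases h : v α ⟨i, k, g⟩ = 0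
        · right
          refine ⟨k, g, fun h' => hkg ?_⟩
          rw [h, h', sub_zero]
        · left
          exact ⟨k, g, h⟩
    have hdisj : ∀ p ∈ m, Disjoint (spt d) (spt p.2) := by
      intro p hp
      rw [Set.disjoint_left]
      rintro i ⟨k, g, hkg⟩ hi
      obtain ⟨n, hn⟩ := hf p.1 ⟨p, hp, rfl, hi⟩
      apply hkg
      rw [hdv, ← hn]
      have h1 := congrFun (congrFun hαβ (p.1, n)) (k, g)
      change v α ⟨f p.1 n, k, g⟩ = v β ⟨f p.1 n, k, g⟩ at h1
      rw [h1, sub_self]
    have hins : insert (c, d) m ∈ Fam := by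
      constructor
      · intro p hp
        rcases hp with rfl | hp
        · exact hgood
        · exact hm.1.1 p hp
      · intro p hp p' hp' hpp
        rcases hp with rfl | hp
        · rcases hp' with rfl | hp'
          · exact absurd rfl hpp
          · exact ⟨fun h => hno p' hp' h.symm, hdisj p' hp'⟩
        · rcases hp' with rfl | hp'
          · exact ⟨fun h => hno p hp h, (hdisj p hp).symm⟩
          · exact hm.1.2 p hp p' hp' hpp
    have hsub := hm.2 hins (Set.subset_insert _ _)
    exact hno (c, d) (hsub (Set.mem_insert _ _)) rfl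
  choose p hpm hpc using hall
  refine ⟨fun c => (p c).2, fun c => (hm.1.1 _ (hpm c)).1, ?_, ?_⟩
  · intro c
    obtain ⟨α, hα⟩ := (hm.1.1 _ (hpm c)).2.1
    rw [hpc c] at hα
    exact ⟨α, hα⟩
  · intro c c' hcc i
    have hne : p c ≠ p c' := by
      intro h
      apply hcc
      rw [← hpc c, ← hpc c', h]
    have hdis := (hm.1.2 _ (hpm c) _ (hpm c') hne).2
    by_cases h : i ∈ spt (p c).2
    · right
      have h' := Set.disjoint_left.1 hdis h
      intro k g
      by_contra h0
      exact h' ⟨k, g, h0⟩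
    · left
      intro k g
      by_contra h0
      exact h ⟨k, g, h0⟩

end Pool.Agent.W479.UR
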